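import Pool.Agent.MP_3ce0a0_al.H79.SpecN

/-
Degree one modules inside permutation modules.
-/

namespace Pool.Agent.MP_3ce0a0_al.H57

open Equiv Pool.Agent.MP_3ce0a0_al.H79

section
variable {ι Z Ω : Type} [Fintype ι] [DecidableEq ι] [AddCommGroup Z] [Module ℂ Z]

theorem ex_ne (h : 12 ≤ Fintype.card ι) (a b c : ι) : ∃ f, f ≠ a ∧ f ≠ b ∧ f ≠ c := by
  by_contra hc
  have hs : (Finset.univ : Finset ι) ⊆ {a, b, c} := by
    intro f _
    by_contra hf
    apply hc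
    simp only [Finset.mem_insert, Finset.mem_singleton, not_or] at hf
    exact ⟨f, hf⟩
  have h1 := Finset.card_le_card hs
  have h2 : ({a, b, c} : Finset ι).card ≤ 3 := Finset.card_le_three
  rw [Finset.card_univ] at h1
  omega

theorem ex_even (h : 12 ≤ Fintype.card ι) (a a' : ι) :
    ∃ σ : Perm ι, Perm.sign σ = 1 ∧ σ a = a' := by
  by_cases e : a = a'
  · exact ⟨1, by simp, by simp [e]⟩
  obtain ⟨b, hb1, hb2, -⟩ := ex_ne h a a' a
  obtain ⟨c, hc1, hc2, hc3⟩ := ex_ne h a a' b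
  refine ⟨swap a a' * swap b c, ?_, ?_⟩
  · rw [Perm.sign_mul, Perm.sign_swap e, Perm.sign_swap hc3.symm]
    simp
  · rw [Perm.mul_apply, swap_apply_of_ne_of_ne hb1.symm hc1.symm, swap_apply_left]

/-- the data of the statement. -/
structure Dat (Q : WS ι (Z ≃ₗ[ℂ] Z)) (P : WS ι (Perm Ω)) (j : Z →ₗ[ℂ] (Ω → ℂ))
    (lab : Ω → Option ι) : Prop where
  card : 12 ≤ Fintype.card ι
  emb : Emb Q P j
  labπ : ∀ σ ω, lab (P.π σ ω) = (lab ω).map σ
  labε : ∀ a ω, lab (P.ε a ω) = lab ω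
  fx : ∀ z ω, j z ω ≠ 0 → Fx P ω (Finset.univ.filter fun a => lab ω ≠ some a)

variable {Q : WS ι (Z ≃ₗ[ℂ] Z)} {P : WS ι (Perm Ω)} {j : Z →ₗ[ℂ] (Ω → ℂ)} {lab : Ω → Option ι}

omit [Fintype ι] [DecidableEq ι] in
theorem εε (P : WS ι (Perm Ω)) (a : ι) (ω : Ω) : P.ε a (P.ε a ω) = ω := by
  rw [← Perm.mul_apply, P.ε_sq, Perm.one_apply]

omit [Fintype ι] [DecidableEq ι] in
theorem εcomm (P : WS ι (Perm Ω)) (a b : ι) (ω : Ω) : P.ε a (P.ε b ω) = P.ε b (P.ε a ω) := by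
  rw [← Perm.mul_apply, P.ε_comm, Perm.mul_apply]

theorem Dat.jε (D : Dat Q P j lab) (a : ι) (z : Z) (ω : Ω) :
    j (Q.ε a z) ω = j z (P.ε a ω) := by
  have h := D.emb.2.2 a z (P.ε a ω)
  rwa [εε] at h

theorem Dat.jT (D : Dat Q P j lab) (a b : ι) (z : Z) (ω : Ω) :
    j (Q.ε a (Q.ε b z)) ω = j z (P.ε a (P.ε b ω)) := by
  rw [D.jε, D.jε, εcomm]

theorem Dat.fixπ (D : Dat Q P j lab) {σ : Perm ι} (hσ : Perm.sign σ = 1) {ω : Ω}
    (h : ∀ b, lab ω = some b → σ b = b) (z : Z) : j (Q.π σ z) ω = j z ω := by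
  by_cases ho : ∃ z', j z' ω ≠ 0
  · obtain ⟨z', hz'⟩ := ho
    have hf : P.π σ ω = ω := by
      refine (D.fx z' ω hz').1 σ hσ fun a ha => h a ?_
      simpa using ha
    have := D.emb.2.1 σ z ω
    rwa [hf] at this
  · have h0 : ∀ z', j z' ω = 0 := fun z' => by
      by_contra hc
      exact ho ⟨z', hc⟩
    rw [h0, h0]

theorem Dat.fixε (D : Dat Q P j lab) {a b : ι} {ω : Ω} (ha : lab ω ≠ some a)
    (hb : lab ω ≠ some b) (z : Z) : j z (P.ε a (P.ε b ω)) = j z ω := by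
  by_cases ho : ∃ z', j z' ω ≠ 0
  · obtain ⟨z', hz'⟩ := ho
    rw [(D.fx z' ω hz').2 a (by simpa using ha) b (by simpa using hb)]
  · have h0 : ∀ z', j z' ω = 0 := fun z' => by
      by_contra hc
      exact ho ⟨z', hc⟩
    rw [← D.jT, h0, h0]

theorem Dat.indep (D : Dat Q P j lab) {a f f' : ι} {ω : Ω} (ha : lab ω = some a) (hf : f ≠ a)
    (hf' : f' ≠ a) (z : Z) : j z (P.ε a (P.ε f ω)) = j z (P.ε a (P.ε f' ω)) := by
  have h1 : lab ω ≠ some f := by
    rw [ha]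
    exact fun e => hf (Option.some.inj e).symm
  have h2 : lab ω ≠ some f' := by
    rw [ha]
    exact fun e => hf' (Option.some.inj e).symm
  have h := D.fixε h2 h1 (Q.ε f' (Q.ε a z))
  rw [D.jT, D.jT, εcomm P f' a, εε, εcomm P f' a] at h
  exact h

theorem Dat.mem_E0 (D : Dat Q P j lab) (z : Z) :
    z ∈ E0 Q ↔ ∀ a b ω, j z (P.ε a (P.ε b ω)) = j z ω := by
  simp only [E0, Submodule.mem_iInf, LinearMap.mem_ker, LinearMap.sub_apply, LinearMap.id_apply,
    LinearEquiv.coe_coe, LinearEquiv.mul_apply, sub_eq_zero]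
  constructor
  · intro h a b ω
    rw [← D.jT, h]
  · intro h a b
    apply D.emb.1
    funext ω
    rw [D.jT, h]

theorem Dat.mem_Ea (D : Dat Q P j lab) (z : Z) (a : ι) :
    z ∈ Ea Q a ↔ ∀ f, f ≠ a → ∀ ω, j z (P.ε a (P.ε f ω)) = -j z ω := by
  simp only [Ea, Submodule.mem_iInf, LinearMap.mem_ker, LinearMap.add_apply, LinearMap.id_apply,
    LinearEquiv.coe_coe, LinearEquiv.mul_apply, add_eq_zero_iff_eq_neg]
  constructor
  · intro h f hf ω
    rw [← D.jT, h f hf, map_neg, Pi.neg_apply]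
  · intro h f hf
    apply D.emb.1
    funext ω
    rw [D.jT, h f hf, map_neg, Pi.neg_apply]

theorem Dat.lab_Ea (D : Dat Q P j lab) {z : Z} {a : ι} (hz : z ∈ Ea Q a) {ω : Ω}
    (h : lab ω ≠ some a) : j z ω = 0 := by
  have : ∃ f, f ≠ a ∧ lab ω ≠ some f := by
    cases hl : lab ω with
    | none =>
      obtain ⟨f, hf, -⟩ := ex_ne D.card a a a
      exact ⟨f, hf, by simp⟩
    | some c =>
      obtain ⟨f, hf, hc, -⟩ := ex_ne D.card a c c
      exact ⟨f, hf, fun e => hc (Option.some.inj e).symm⟩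
  obtain ⟨f, hf, hl⟩ := this
  have h1 := (D.mem_Ea z a).1 hz f hf ω
  rw [D.fixε h hl] at h1
  linear_combination h1 / 2

/-- the odd part on the label `a`. -/
theorem Dat.odd (D : Dat Q P j lab) (z : Z) (a : ι) :
    ∃ y ∈ Ea Q a, (∀ ω, lab ω ≠ some a → j y ω = 0) ∧
      ∀ ω f, lab ω = some a → f ≠ a → j y ω = (j z ω - j z (P.ε a (P.ε f ω))) / 2 := by
  obtain ⟨f₁, h₁, -⟩ := ex_ne D.card a a a
  obtain ⟨f₂, h₂, h₂₁, -⟩ := ex_ne D.card a f₁ a
  set y : Z := (1 / 4 : ℂ) • (z - Q.ε a (Q.ε f₁ z) - Q.ε a (Q.ε f₂ z) + Q.ε f₁ (Q.ε f₂ z))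
    with hy
  have hj : ∀ ω, j y ω = (j z ω - j z (P.ε a (P.ε f₁ ω)) - j z (P.ε a (P.ε f₂ ω)) +
      j z (P.ε f₁ (P.ε f₂ ω))) / 4 := by
    intro ω
    rw [hy, map_smul, map_add, map_sub, map_sub]
    simp only [Pi.smul_apply, Pi.add_apply, Pi.sub_apply, smul_eq_mul, D.jT]
    ring
  have hA : ∀ ω, lab ω ≠ some a → j y ω = 0 := by
    intro ω h
    rw [hj]
    by_cases e₁ : lab ω = some f₁
    · have n₂ : lab ω ≠ some f₂ := by
        rw [e₁]
        exact fun e => h₂₁ (Option.some.inj e).symm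
      rw [D.fixε h n₂, εcomm P a f₁, D.indep e₁ h₁.symm h₂₁]
      ring
    · by_cases e₂ : lab ω = some f₂
      · rw [D.fixε h e₁, εcomm P a f₂, εcomm P f₁ f₂, D.indep e₂ h₂.symm h₂₁.symm]
        ring
      · rw [D.fixε h e₁, D.fixε h e₂, D.fixε e₁ e₂]
        ring
  have hB : ∀ ω f, lab ω = some a → f ≠ a →
      j y ω = (j z ω - j z (P.ε a (P.ε f ω))) / 2 := by
    intro ω f h hf
    have n₁ : lab ω ≠ some f₁ := by
      rw [h]
      exact fun e => h₁ (Option.some.inj e).symm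
    have n₂ : lab ω ≠ some f₂ := by
      rw [h]
      exact fun e => h₂ (Option.some.inj e).symm
    rw [hj, D.fixε n₁ n₂, D.indep h h₁ hf, D.indep h h₂ hf]
    ring
  refine ⟨y, (D.mem_Ea y a).2 fun f hf ω => ?_, hA, hB⟩
  by_cases h : lab ω = some a
  · have h' : lab (P.ε a (P.ε f ω)) = some a := by rw [D.labε, D.labε, h]
    rw [hB _ f h' hf, hB ω f h hf, εcomm P f a, εε, εε]
    ring
  · have h' : lab (P.ε a (P.ε f ω)) ≠ some a := by rwa [D.labε, D.labε]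
    rw [hA _ h', hA _ h, neg_zero]

/-- the decomposition in an even part and odd parts. -/
theorem Dat.dec (D : Dat Q P j lab) (z : Z) :
    ∃ z₀ ∈ E0 Q, z - z₀ ∈ ⨆ a, Ea Q a ∧
      ∀ ω a f, lab ω = some a → f ≠ a → j z₀ ω = (j z ω + j z (P.ε a (P.ε f ω))) / 2 := by
  choose y hy hA hB using D.odd z
  have hC : ∀ ω a f, lab ω = some a → f ≠ a →
      j (z - ∑ a, y a) ω = (j z ω + j z (P.ε a (P.ε f ω))) / 2 := by
    intro ω a f h hf
    rw [map_sub, map_sum, Pi.sub_apply, Finset.sum_apply, Finset.sum_eq_single a, hB a ω f h hf]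
    · ring
    · intro b _ hb
      refine hA b ω ?_
      rw [h]
      exact fun e => hb (Option.some.inj e).symm
    · simp
  refine ⟨z - ∑ a, y a, (D.mem_E0 _).2 fun a b ω => ?_, ?_, hC⟩
  · have key : ∀ a b, lab ω = some a → b ≠ a →
        j (z - ∑ a, y a) (P.ε a (P.ε b ω)) = j (z - ∑ a, y a) ω := by
      intro a b h hb
      have h' : lab (P.ε a (P.ε b ω)) = some a := by rw [D.labε, D.labε, h]
      rw [hC _ a b h' hb, hC ω a b h hb, εcomm P b a, εε, εε]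
      ring
    by_cases e : a = b
    · rw [e, εε]
    by_cases ha : lab ω = some a
    · exact key a b ha (Ne.symm e)
    by_cases hb : lab ω = some b
    · rw [εcomm]
      exact key b a hb e
    exact D.fixε ha hb _
  · rw [sub_sub_cancel]
    exact Submodule.sum_mem _ fun a _ => Submodule.mem_iSup_of_mem a (hy a)

theorem Dat.deg1 (D : Dat Q P j lab) : Deg1 Q := by
  constructor
  · rw [eq_top_iff]
    intro z _
    obtain ⟨z₀, h₀, h₁, -⟩ := D.dec z
    have : z = z₀ + (z - z₀) := by abel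
    rw [this]
    exact Submodule.add_mem_sup h₀ h₁
  · intro a z hz σ hσ ha
    apply D.emb.1
    funext ω
    by_cases h : lab ω = some a
    · refine D.fixπ hσ (fun b hb => ?_) z
      rw [h] at hb
      rw [← Option.some.inj hb, ha]
    · rw [D.lab_Ea hz h]
      obtain ⟨ω', rfl⟩ := (P.π σ).surjective ω
      rw [D.emb.2.1]
      refine D.lab_Ea hz fun h' => h ?_
      rw [D.labπ, h', Option.map_some, ha]

theorem Dat.disj (D : Dat Q P j lab) (σ τ : Perm ι) (hσ : Perm.sign σ = 1)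
    (hτ : Perm.sign τ = 1) (hd : Perm.Disjoint σ τ) (z : Z) :
    z - Q.π σ z - Q.π τ (z - Q.π σ z) = 0 := by
  apply D.emb.1
  funext ω
  rw [map_zero, Pi.zero_apply, map_sub, Pi.sub_apply]
  by_cases h : ∀ b, lab ω = some b → τ b = b
  · rw [D.fixπ hτ h, sub_self]
  · have h' : ∀ b, lab ω = some b → σ b = b := by
      intro b hb
      rcases hd b with e | e
      · exact e
      · refine absurd (fun c hc => ?_) h
        rw [hb] at hc
        rw [← Option.some.inj hc, e]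
    obtain ⟨ω', rfl⟩ := (P.π τ).surjective ω
    have h'' : ∀ b, lab ω' = some b → σ b = b := by
      intro b hb
      have e := h' (τ b) (by rw [D.labπ, hb, Option.map_some])
      rw [← Perm.mul_apply, hd.commute.eq, Perm.mul_apply] at e
      exact τ.injective e
    rw [D.emb.2.1, map_sub, Pi.sub_apply, Pi.sub_apply, D.fixπ hσ h', D.fixπ hσ h'']
    ring

end

theorem sdegc (h1 : SUnip) (h2 : SDeg) : SDegC := by
  intro ι Z Ω _ _ _ _ _ N P j lab hc hE hπ hε hF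
  have D : Dat N.toWS P j lab := ⟨hc, hE, hπ, hε, hF⟩
  have hT : Triv N.toWS := h2 ι Z N hc D.deg1 (h1 ι Z N hc D.deg1 D.disj)
  refine ⟨D.deg1, hT, ?_, ?_, ?_⟩
  · intro z a' hz ω a f ha hf
    obtain ⟨z₀, h₀, -, hC⟩ := D.dec z
    obtain ⟨σ, hσ, hσa⟩ := ex_even hc a a'
    obtain ⟨f', hf', -⟩ := ex_ne hc a' a' a'
    have hl : lab (P.π σ ω) = some a' := by rw [hπ, ha, Option.map_some, hσa]
    have z1 : ∀ ω', lab ω' = some a' → j z ω' = 0 := fun ω' h => by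
      by_contra hne
      exact hz ω' hne h
    have e1 : j z₀ (P.π σ ω) = 0 := by
      rw [hC _ a' f' hl hf', z1 _ hl, z1 _ (by rw [hε, hε, hl])]
      ring
    have e2 := hE.2.1 σ z₀ ω
    rw [hT.2.1 σ hσ z₀ h₀, e1, hC ω a f ha hf] at e2
    linear_combination (-2 : ℂ) * e2
  · intro z hz
    refine (D.mem_E0 z).2 fun a b ω => ?_
    by_cases h : lab ω = none
    · exact D.fixε (by simp [h]) (by simp [h]) z
    · have z1 : ∀ ω', lab ω' ≠ none → j z ω' = 0 := fun ω' h' => by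
        by_contra hne
        exact h' (hz ω' hne)
      rw [z1 _ h, z1 _ (by rwa [hε, hε])]
  · intro z a hz
    obtain ⟨y, hy, hA, hB⟩ := D.odd z a
    obtain ⟨f, hf, -⟩ := ex_ne hc a a a
    refine ⟨y, hy, fun ω => ?_⟩
    split_ifs with h
    · rw [hB ω f h hf, hz ω f h hf]
      ring
    · exact hA ω h

end Pool.Agent.MP_3ce0a0_al.H57
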