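import Pool.Agent.MP_3ce0a0_al.H79.SpecS
import Pool.Agent.MP_3ce0a0_al.H33.Top

/-
The top cross effect is odd, sharper form, and actions with small supports are trivial on even
permutations.
-/

namespace Pool.Agent.MP_3ce0a0_al.H57

open Equiv Pool.Agent.MP_3ce0a0_al.H79 Pool.Agent.MP_3ce0a0_al.H33

section Top

variable {ι H Ω : Type} [DecidableEq ι] [AddCommGroup H] [Module ℂ H]
  {N : NS ι (H ≃ₗ[ℂ] H)} {P : WS ι (Perm Ω)} {j : H →ₗ[ℂ] (Ω → ℂ)}

/-- the signed cross effect operator of a family of permutations. -/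
theorem exists_cross2 {κ : Type} (hE : Emb N.toWS P j) (η : ℂ) (σ : κ → Perm ι)
    (M : Submodule ℂ H) (hM : ∀ t, ∀ z ∈ M, N.π (σ t) z ∈ M) (r : κ → Ω → Prop)
    (hr : ∀ t, ∀ z ∈ M, ∀ w, r t w → j z w = η * j z (P.π (σ t)⁻¹ w))
    (hr' : ∀ t t' w, t ≠ t' → r t' w → r t' (P.π (σ t)⁻¹ w)) (T : Finset κ) :
    ∃ D : H →ₗ[ℂ] H,
      (∀ u : H ≃ₗ[ℂ] H, (∀ t, Commute u (N.π (σ t))) → ∀ z, u (D z) = D (u z)) ∧
      (∀ z ∈ M, D z ∈ M) ∧
      (∀ z ∈ M, ∀ w, j (D z) w ≠ 0 → ∀ t ∈ T, ¬ r t w) ∧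
      (∀ q : Ω → Prop, (∀ t ∈ T, ∀ w, q (P.π (σ t)⁻¹ w) → q w) → ∀ z ∈ car j q, D z ∈ car j q) ∧
      ∀ z w, (∀ t ∈ T, ∃ q : Ω → Prop, (∀ t' ∈ T, t' ≠ t → ∀ w, q (P.π (σ t')⁻¹ w) → q w) ∧
        z ∈ car j q ∧ ¬q (P.π (σ t)⁻¹ w)) → j (D z) w = j z w := by
  classical
  induction T using Finset.induction_on with
  | empty =>
    exact ⟨LinearMap.id, fun _ _ _ => rfl, fun _ hz => hz, by simp, fun _ _ _ hz => hz,
      fun _ _ _ => rfl⟩
  | insert t T ht ih =>
    obtain ⟨D, h1, h0, h2, h3, h4⟩ := ih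
    have ap : ∀ z, (D - η • ((N.π (σ t) : H →ₗ[ℂ] H) ∘ₗ D)) z = D z - η • N.π (σ t) (D z) :=
      fun z => rfl
    have ev : ∀ z w, j ((D - η • ((N.π (σ t) : H →ₗ[ℂ] H) ∘ₗ D)) z) w =
        j (D z) w - η * j (D z) (P.π (σ t)⁻¹ w) := fun z w => by
      rw [ap, map_sub, map_smul, Pi.sub_apply, Pi.smul_apply, smul_eq_mul, emb_pi hE]
    refine ⟨D - η • ((N.π (σ t) : H →ₗ[ℂ] H) ∘ₗ D), fun u hu z => ?_, fun z hz => ?_,
      fun z hz w hw t' ht' k => hw ?_, fun q hq z hz w hw => ?_, fun z w hz => ?_⟩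
    · rw [ap, ap, map_sub, map_smul, ← h1 u hu, ← LinearEquiv.mul_apply u, (hu t).eq,
        LinearEquiv.mul_apply]
    · rw [ap]
      exact M.sub_mem (h0 z hz) (M.smul_mem _ (hM t _ (h0 z hz)))
    · rw [ev]
      rcases Finset.mem_insert.1 ht' with rfl | ht'
      · rw [← hr t' _ (h0 z hz) w k, sub_self]
      · have e1 : j (D z) w = 0 := by_contra fun e => h2 z hz w e t' ht' k
        have e2 : j (D z) (P.π (σ t)⁻¹ w) = 0 := by_contra fun e => h2 z hz _ e t' ht'
          (hr' t t' w (fun e' => ht (e' ▸ ht')) k)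
        rw [e1, e2, mul_zero, sub_self]
    · have k := h3 q (fun t' ht' => hq t' (Finset.mem_insert_of_mem ht')) z hz
      by_contra hn
      have e1 : j (D z) w = 0 := by_contra fun e => hn (k w e)
      have e2 : j (D z) (P.π (σ t)⁻¹ w) = 0 :=
        by_contra fun e => hn (hq t (Finset.mem_insert_self _ _) w (k _ e))
      exact hw (by rw [ev, e1, e2, mul_zero, sub_self])
    · obtain ⟨q, q1, q2, q3⟩ := hz t (Finset.mem_insert_self _ _)
      have e2 : j (D z) (P.π (σ t)⁻¹ w) = 0 := by_contra fun e => q3 (h3 q (fun t' ht' =>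
        q1 t' (Finset.mem_insert_of_mem ht') fun e' => ht (e' ▸ ht')) z q2 _ e)
      rw [ev, e2, mul_zero, sub_zero]
      refine h4 z w fun t' ht' => ?_
      obtain ⟨q, q1, q2⟩ := hz t' (Finset.mem_insert_of_mem ht')
      exact ⟨q, fun t'' k => q1 t'' (Finset.mem_insert_of_mem k), q2⟩

/-- vectors of a given sign. -/
def sgn (P : WS ι (Perm Ω)) (s : Ω → Finset ι) (η : ℂ) (j : H →ₗ[ℂ] (Ω → ℂ)) :
    Submodule ℂ H where
  carrier := {z | Sg P s η (j z)}
  add_mem' {y z} hy hz w a b hab ha hb := by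
    rw [map_add, Pi.add_apply, Pi.add_apply, hy w a b hab ha hb, hz w a b hab ha hb, mul_add]
  zero_mem' w a b _ _ _ := by
    rw [map_zero, Pi.zero_apply, Pi.zero_apply, mul_zero]
  smul_mem' c z hz w a b hab ha hb := by
    rw [map_smul, Pi.smul_apply, Pi.smul_apply, hz w a b hab ha hb, smul_eq_mul, smul_eq_mul]
    ring

theorem sgn_pi [Fintype ι] {k : ℕ} {s : Ω → Finset ι} (hE : Emb N.toWS P j) (hs : Supp P k s)
    {η : ℂ} (σ : Perm ι) {z : H} (hz : z ∈ sgn P s η j) : N.π σ z ∈ sgn P s η j := by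
  intro w a b hab ha hb
  rw [emb_pi hE, emb_pi hE]
  have e : P.π σ⁻¹ (P.π (swap a b) w) = P.π (swap (σ⁻¹ a) (σ⁻¹ b)) (P.π σ⁻¹ w) := by
    rw [← Perm.mul_apply, ← map_mul, ← Perm.mul_apply, ← map_mul, mul_swap_eq_swap_mul]
  rw [e]
  refine hz _ _ _ (fun h => hab (σ⁻¹.injective h)) ?_ ?_
  · rw [mem_supp hs]
    simpa using ha
  · rw [mem_supp hs]
    simpa using hb

theorem mem_swap' [Fintype ι] {k : ℕ} {s : Ω → Finset ι} (hs : Supp P k s) (p q : ι) (w : Ω)
    (a : ι) : a ∈ s (P.π (swap p q) w) ↔ swap p q a ∈ s w := by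
  rw [← mem_supp hs, swap_inv]

theorem supp_swap [Fintype ι] {k : ℕ} {s : Ω → Finset ι} (hs : Supp P k s) {p q : ι} {w : Ω}
    (hp : p ∉ s w) (hq : q ∉ s w) : s (P.π (swap p q) w) = s w := by
  ext a
  rw [mem_swap' hs]
  by_cases h1 : a = p
  · rw [h1, swap_apply_left]
    exact iff_of_false hq hp
  · by_cases h2 : a = q
    · rw [h2, swap_apply_right]
      exact iff_of_false hp hq
    · rw [swap_apply_of_ne_of_ne h1 h2]

theorem swap_swap (P : WS ι (Perm Ω)) (p q : ι) (w : Ω) :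
    P.π (swap p q) (P.π (swap p q) w) = w := by
  rw [← Perm.mul_apply, ← map_mul, swap_mul_self, map_one, Perm.one_apply]

theorem two_off [Fintype ι] {k : ℕ} {s : Ω → Finset ι} (hs : Supp P k s)
    (hk : k + 1 ≤ Fintype.card ι) (w : Ω) : ∃ p q, p ≠ q ∧ p ∉ s w ∧ q ∉ s w := by
  have h1 := hs.1 w
  obtain ⟨p, hp, q, hq, hpq⟩ := Finset.one_lt_card.1
    (show 1 < (s w)ᶜ.card by rw [Finset.card_compl]; omega)
  exact ⟨p, q, hpq, Finset.mem_compl.1 hp, Finset.mem_compl.1 hq⟩

/-- splitting by the sign. -/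
theorem split_sgn [Fintype ι] {k : ℕ} {s : Ω → Finset ι} (hs : Supp P k s)
    (hk : k + 1 ≤ Fintype.card ι) (hsp : Splits P s j) (h : H) :
    ∃ y z, y ∈ sgn P s 1 j ∧ z ∈ sgn P s (-1) j ∧ h = y + z ∧
      ∀ q : Finset ι → Prop, h ∈ car j (fun w => q (s w)) →
        y ∈ car j (fun w => q (s w)) ∧ z ∈ car j (fun w => q (s w)) := by
  obtain ⟨h', hh'⟩ := hsp h
  have back : ∀ w a b, a ≠ b → a ∉ s w → b ∉ s w → j h' (P.π (swap a b) w) = j h w :=
    fun w a b hab ha hb => by
      rw [hh' _ a b hab (by rwa [supp_swap hs ha hb]) (by rwa [supp_swap hs ha hb]), swap_swap]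
  refine ⟨(1 / 2 : ℂ) • (h + h'), (1 / 2 : ℂ) • (h - h'), Submodule.smul_mem _ _ ?_,
    Submodule.smul_mem _ _ ?_, ?_, fun q hq => ?_⟩
  · intro w a b hab ha hb
    rw [map_add, Pi.add_apply, Pi.add_apply, back w a b hab ha hb, ← hh' w a b hab ha hb]
    ring
  · intro w a b hab ha hb
    rw [map_sub, Pi.sub_apply, Pi.sub_apply, back w a b hab ha hb, ← hh' w a b hab ha hb]
    ring
  · rw [← smul_add, show h + h' + (h - h') = (2 : ℂ) • h by rw [two_smul]; abel, smul_smul]
    norm_num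
  · have k' : h' ∈ car j (fun w => q (s w)) := fun w hw => by
      obtain ⟨a, b, hab, ha, hb⟩ := two_off hs hk w
      rw [hh' w a b hab ha hb] at hw
      have := hq _ hw
      simpa only [supp_swap hs ha hb] using this
    exact ⟨Submodule.smul_mem _ _ (Submodule.add_mem _ hq k'),
      Submodule.smul_mem _ _ (Submodule.sub_mem _ hq k')⟩

/-- partners outside a small set. -/
theorem exists_partner [Fintype ι] (I J : Finset ι) (hc : I.card + J.card + 1 ≤ Fintype.card ι) :
    ∃ (a' : ι) (b : ι → ι), a' ∉ I ∧ (∀ t, b t ∉ I) ∧ (∀ t ∈ J, b t ≠ a') ∧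
      ∀ t ∈ J, ∀ t' ∈ J, b t = b t' → t = t' := by
  have hcard : Fintype.card (Option J) ≤ Fintype.card (Iᶜ : Finset ι) := by
    simp only [Fintype.card_option, Fintype.card_coe, Finset.card_compl]
    omega
  obtain ⟨e⟩ := Function.Embedding.nonempty_of_card_le hcard
  let g : Option J → ι := fun x => (e x).1
  have gI : ∀ x, g x ∉ I := fun x => Finset.mem_compl.1 (e x).2
  have gi : Function.Injective g := fun x y k => e.injective (Subtype.ext k)
  refine ⟨g none, fun t => if h : t ∈ J then g (some ⟨t, h⟩) else g none, gI _, fun t => ?_,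
    fun t ht => ?_, fun t ht t' ht' => ?_⟩
  · show (if h : t ∈ J then g (some ⟨t, h⟩) else g none) ∉ I
    split_ifs <;> exact gI _
  · show (if h : t ∈ J then g (some ⟨t, h⟩) else g none) ≠ g none
    rw [dif_pos ht]
    exact gi.ne (by simp)
  · show (if h : t ∈ J then g (some ⟨t, h⟩) else g none) =
      (if h : t' ∈ J then g (some ⟨t', h⟩) else g none) → _
    rw [dif_pos ht, dif_pos ht']
    intro k
    simpa using gi k

end Top

theorem stop2 (h1 : SDegC) (h2 : SBar) : STop2 := by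
  intro ι H Ω _ _ _ _ _ N P j k s I i hE hs hk hsp hI hi hd
  have hsε : ∀ a w, s (P.ε a w) = s w := hs.2.2.2.2
  obtain ⟨J, hJ⟩ : ∃ J, J = I.erase i := ⟨_, rfl⟩
  have memJ : ∀ a, a ∈ J ↔ a ≠ i ∧ a ∈ I := fun a => by rw [hJ, Finset.mem_erase]
  have cardJ : J.card + 1 = I.card := by rw [hJ, Finset.card_erase_add_one hi]
  obtain ⟨a', b, ha', hb, hba, binj⟩ := exists_partner I J (by omega)
  refine ⟨a', b, ha', hb, ?_⟩
  let σ : J → Perm ι := fun t => swap (t : ι) (b t)
  have tI : ∀ t : J, (t : ι) ∈ I := fun t => ((memJ t).1 t.2).2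
  have tb : ∀ t t' : J, b t ≠ t' := fun t t' e => hb t (e ▸ tI t')
  let p : ι → Prop := fun a => a ∉ J ∧ a ∉ J.image b
  have s6 : ∀ (t : J) a, p a → σ t a = a := fun t a ha =>
    swap_apply_of_ne_of_ne (fun e => ha.1 (e ▸ t.2))
      fun e => ha.2 (e ▸ Finset.mem_image_of_mem b t.2)
  have s4 : ∀ t t' : J, t ≠ t' → σ t t' = t' ∧ σ t (b t') = b t' := fun t t' e =>
    ⟨swap_apply_of_ne_of_ne (fun k => e (Subtype.ext k).symm) (tb t t').symm,
      swap_apply_of_ne_of_ne (tb t' t) fun k => e (Subtype.ext (binj _ t'.2 _ t.2 k)).symm⟩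
  have pa' : p a' := ⟨fun e => ha' ((memJ a').1 e).2, fun e => by
    obtain ⟨t, ht, e⟩ := Finset.mem_image.1 e
    exact hba t ht e⟩
  have pi : p i := ⟨fun e => ((memJ i).1 e).1 rfl, fun e => by
    obtain ⟨t, -, e⟩ := Finset.mem_image.1 e
    exact hb t (e ▸ hi)⟩
  have cardp : 12 ≤ Fintype.card (Subtype p) := by
    have e : Fintype.card (Subtype p) = (J ∪ J.image b)ᶜ.card :=
      Fintype.card_of_subtype _ fun a => by simp only [Finset.mem_compl, Finset.mem_union, not_or]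
    have e1 := Finset.card_union_le J (J.image b)
    have e2 := Finset.card_image_le (s := J) (f := b)
    rw [e, Finset.card_compl]
    omega
  have main : ∀ η : ℂ, η = 1 ∨ η = -1 → ∀ h ∈ sgn P s η j,
      (∀ ω, j h ω ≠ 0 → a' ∉ s ω ∧ (s ω = I ∨ ∃ t ∈ I, t ∉ s ω ∧ b t ∉ s ω)) →
      ∀ ω, s ω = I → j h (P.ε i (P.ε a' ω)) = -j h ω := by
    intro η hη h hsg hh ω hω
    have hη2 : η * η = 1 := by
      rcases hη with rfl | rfl <;> norm_num
    obtain ⟨D, d1, -, d2, d3, d4⟩ := exists_cross2 hE η σ (sgn P s η j)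
      (fun t z hz => sgn_pi hE hs _ hz) (fun t w => (t : ι) ∉ s w ∧ b t ∉ s w)
      (fun t z hz w hw => by
        rw [swap_inv, hz w t (b t) (tb t t).symm hw.1 hw.2, ← mul_assoc, hη2, one_mul])
      (fun t t' w e hw => by
        rw [mem_supp hs, mem_supp hs, (s4 t t' e).1, (s4 t t' e).2]
        exact hw) Finset.univ
    let Z : Submodule ℂ H := (sgn P s η j).map D
    have st : ∀ u : H ≃ₗ[ℂ] H, (∀ t, Commute u (N.π (σ t))) →
        (∀ z ∈ sgn P s η j, u z ∈ sgn P s η j) → u ∈ stab Z := fun u k1 k2 =>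
      mem_stab (by
        rintro _ ⟨z, hz, rfl⟩
        exact ⟨u z, k2 z hz, (d1 u k1 z).symm⟩)
    have bar := h2 ι H Ω N.toWS P j k s hE hs (by omega) hsp η hη
    have hε : ∀ a, p a → N.ε a ∈ stab Z := fun a ha => st _
      (fun t => by
        have := N.π_ε (σ t) a
        rw [s6 t a ha] at this
        exact this.symm)
      (bar (N.ε a) a a fun c e k1 _ k2 _ => by
        have := N.π_ε (swap c e) a
        rw [swap_apply_of_ne_of_ne k1.symm k2.symm] at this
        exact this.symm)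
    have hπ : ∀ τ : Perm (Subtype p), N.π (Perm.ofSubtype τ) ∈ stab Z := fun τ => st _
      (fun t => Commute.map (Perm.Disjoint.commute fun a => by
        by_cases e : p a
        · exact Or.inr (s6 t a e)
        · exact Or.inl (Perm.ofSubtype_apply_of_not_mem τ e)) N.π)
      fun z hz => sgn_pi hE hs _ hz
    have hρ : ∀ a c, p a → p c → a ≠ c → N.ρ a c ∈ stab Z := fun a c ha hc hac => st _
      (fun t => by
        have := N.π_ρ (σ t) a c hac
        rw [s6 t a ha, s6 t c hc] at this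
        exact this.symm)
      (bar (N.ρ a c) a c fun x y k1 k2 k3 k4 => by
        have := N.π_ρ (swap x y) a c hac
        rw [swap_apply_of_ne_of_ne k1.symm k3.symm, swap_apply_of_ne_of_ne k2.symm k4.symm] at this
        exact this.symm)
    have hl : ∀ a c, p a → p c → a ≠ c → N.lam a c ∈ stab Z := fun a c ha hc hac => st _
      (fun t => by
        have := N.π_lam (σ t) a c hac
        rw [s6 t a ha, s6 t c hc] at this
        exact this.symm)
      (bar (N.lam a c) a c fun x y k1 k2 k3 k4 => by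
        have := N.π_lam (swap x y) a c hac
        rw [swap_apply_of_ne_of_ne k1.symm k3.symm, swap_apply_of_ne_of_ne k2.symm k4.symm] at this
        exact this.symm)
    have uniq : ∀ z ∈ sgn P s η j, ∀ w, j (D z) w ≠ 0 → ∀ a c, p a → p c → a ∈ s w → c ∈ s w →
        a = c := by
      intro z hz w hw a c ha hc ha1 hc1
      by_contra hac
      have m0 : ∀ t : J, ∃ m ∈ s w, m = t ∨ m = b t := fun t => by
        by_contra hn
        push Not at hn
        exact d2 z hz w hw t (Finset.mem_univ _)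
          ⟨fun e => (hn _ e).1 rfl, fun e => (hn _ e).2 rfl⟩
      choose m m1 m2 using m0
      have mi : Function.Injective m := fun t t' e => by
        rcases m2 t with k1 | k1 <;> rcases m2 t' with k2 | k2
        · exact Subtype.ext (k1.symm.trans (e.trans k2))
        · exact absurd (k2.symm.trans (e.symm.trans k1)) (tb t' t)
        · exact absurd (k1.symm.trans (e.trans k2)) (tb t t')
        · exact Subtype.ext (binj _ t.2 _ t'.2 (k1.symm.trans (e.trans k2)))
      have g1 : (Finset.univ.image m).card = J.card := by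
        rw [Finset.card_image_of_injective _ mi, Finset.card_univ, Fintype.card_coe]
      have g2 : ∀ x, p x → x ∉ Finset.univ.image m := fun x hx k => by
        obtain ⟨t, -, rfl⟩ := Finset.mem_image.1 k
        rcases m2 t with k1 | k1
        · exact hx.1 (k1 ▸ t.2)
        · exact hx.2 (k1 ▸ Finset.mem_image_of_mem b t.2)
      have g3 : insert a (insert c (Finset.univ.image m)) ⊆ s w :=
        Finset.insert_subset ha1 (Finset.insert_subset hc1 fun x k => by
          obtain ⟨t, -, rfl⟩ := Finset.mem_image.1 k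
          exact m1 t)
      have g4 := Finset.card_le_card g3
      rw [Finset.card_insert_of_notMem
          (by simp only [Finset.mem_insert, not_or]; exact ⟨hac, g2 a ha⟩),
        Finset.card_insert_of_notMem (g2 c hc), g1] at g4
      have := hd _ w hw
      omega
    obtain ⟨-, -, key, -⟩ := h1 (Subtype p) Z Ω ((nres N p (stab Z) hε hπ hρ hl).map (onSub Z))
      (wsub P p) (j ∘ₗ Z.subtype) (fun w => only fun a : Subtype p => a.1 ∈ s w) cardp
      ⟨hE.1.comp Subtype.coe_injective, fun τ z w => hE.2.1 (Perm.ofSubtype τ) z w,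
        fun a z w => hE.2.2 a z w⟩
      (fun τ w => only_map τ fun a => by
        change (τ a).1 ∈ s (P.π (Perm.ofSubtype τ) w) ↔ _
        rw [hs.2.2.2.1, ← Perm.ofSubtype_apply_coe]
        exact Finset.mem_map' _)
      (fun a w => by
        change (only fun b : Subtype p => b.1 ∈ s (P.ε a w)) = _
        rw [hsε])
      (by
        rintro ⟨_, z, hz, rfl⟩ w hw
        have out : ∀ a : Subtype p, (only fun b : Subtype p => b.1 ∈ s w) ≠ some a → a.1 ∉ s w :=
          fun a k ha => k (only_eq_some.2 fun b =>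
            ⟨fun hb => Subtype.ext (uniq z hz w hw b a b.2 a.2 hb ha), fun e => e ▸ ha⟩)
        refine ⟨fun τ k1 k2 => (hs.2.1 w).1 (Perm.ofSubtype τ) (by rw [Perm.sign_ofSubtype, k1])
          fun a ha => ?_, fun a ha c hc => (hs.2.1 w).2 a
            (Finset.mem_compl.2 (out a (by simpa using ha)))
            c (Finset.mem_compl.2 (out c (by simpa using hc)))⟩
        by_cases e : p a
        · rw [Perm.ofSubtype_apply_of_mem τ e, k2 ⟨a, e⟩ fun k =>
            out ⟨a, e⟩ (by simpa using k) (by simpa using ha)]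
        · exact Perm.ofSubtype_apply_of_not_mem τ e)
    have good : ∀ (t : J) w, (i ∈ s (P.π (σ t)⁻¹ w) ∧ ∀ t' : J, (t' : ι) ∈ s (P.π (σ t)⁻¹ w) ∨
        b t' ∈ s (P.π (σ t)⁻¹ w)) ↔ (i ∈ s w ∧ ∀ t' : J, (t' : ι) ∈ s w ∨ b t' ∈ s w) := by
      intro t w
      refine and_congr (by rw [mem_supp hs, s6 t i pi]) (forall_congr' fun t' => ?_)
      rw [mem_supp hs, mem_supp hs]
      by_cases e : t = t'
      · subst e
        rw [swap_apply_left, swap_apply_right, or_comm]
      · rw [(s4 t t' e).1, (s4 t t' e).2]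
    have ev : ∀ w, s w = I → j (D h) w = j h w := fun w hw => d4 h w fun t _ =>
      ⟨fun w => ¬ ((i ∈ s w ∧ ∀ t' : J, (t' : ι) ∈ s w ∨ b t' ∈ s w) ∧ b t ∈ s w),
        fun t' _ e w k k' => k ⟨(good t' w).2 k'.1, by
          rw [mem_supp hs, (s4 t' t e).2]
          exact k'.2⟩,
        fun w k k' => by
          rcases (hh w k).2 with e | ⟨x, hx, e1, e2⟩
          · exact hb t (e ▸ k'.2)
          · by_cases e : x = i
            · exact e1 (e ▸ k'.1.1)
            · rcases k'.1.2 ⟨x, (memJ x).2 ⟨e, hx⟩⟩ with e3 | e3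
              · exact e1 e3
              · exact e2 e3,
        fun k => k ⟨(good t w).2 ⟨hw ▸ hi, fun t' => Or.inl (hw ▸ tI t')⟩, by
          rw [mem_supp hs, swap_apply_right, hw]
          exact tI t⟩⟩
    have k1 := key ⟨D h, h, hsg, rfl⟩ ⟨a', pa'⟩ (fun w hw k =>
        d3 (fun w => a' ∉ s w) (fun t _ w k k' => k ((mem_supp hs _ w _).2
          ((s6 t a' pa').symm ▸ k'))) h (fun w k => (hh w k).1)
          w hw ((only_eq_some.1 k ⟨a', pa'⟩).2 rfl))
      ω ⟨i, pi⟩ ⟨a', pa'⟩ (only_eq_some.2 fun c => ⟨fun hc => Subtype.ext (by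
        by_contra e
        exact c.2.1 ((memJ c).2 ⟨e, hω ▸ hc⟩)), fun e => by rw [e, hω]; exact hi⟩)
      (fun e => by
        have e' : a' = i := congrArg Subtype.val e
        exact ha' (by rw [e']; exact hi))
    have k2 : j (D h) (P.ε i (P.ε a' ω)) = -j (D h) ω := k1
    rwa [ev _ (by rw [hsε, hsε, hω]), ev _ hω] at k2
  intro h hh ω f hω hf
  obtain ⟨y, z, hy, hz, rfl, hq⟩ := split_sgn hs (by omega) hsp h
  obtain ⟨q1, q2⟩ := hq (fun X => a' ∉ X ∧ (X = I ∨ ∃ t ∈ I, t ∉ X ∧ b t ∉ X)) hh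
  have k3 : P.ε f ω = P.ε a' ω := by
    have := (hs.2.1 ω).2 f (Finset.mem_compl.2 (hω ▸ hf)) a' (Finset.mem_compl.2 (hω ▸ ha'))
    conv_lhs => rw [← this, eps_eps]
  rw [k3, map_add, Pi.add_apply, Pi.add_apply, main 1 (Or.inl rfl) y hy q1 ω hω,
    main (-1) (Or.inr rfl) z hz q2 ω hω, neg_add]

theorem ssmall2 (h1 : SSupp) (h2 : STop2) : SSmall2 := by
  classical
  intro ι Ω _ _ _ N k hk hX σ hσ ω
  obtain ⟨s, hs⟩ := h1 ι Ω N.toWS k (by omega) hX
  have := Fintype.ofFinite Ω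
  obtain ⟨ω0, -, h0⟩ := Finset.exists_max_image Finset.univ (fun w => (s w).card)
    ⟨ω, Finset.mem_univ _⟩
  rcases (s ω0).eq_empty_or_nonempty with e | ⟨i, hi⟩
  · have e' : s ω = ∅ := Finset.card_eq_zero.1 (by
      have := h0 ω (Finset.mem_univ _)
      rw [e, Finset.card_empty] at this
      omega)
    exact (hs.2.1 ω).1 σ hσ fun a ha => by simp [e'] at ha
  exfalso
  have hsp : Splits N.toWS s (LinearMap.id : (Ω → ℂ) →ₗ[ℂ] (Ω → ℂ)) := by
    intro h
    choose p q hpq hp hq using two_off hs (by omega)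
    refine ⟨fun w => h (N.π (swap (p w) (q w)) w), fun w a b hab ha hb => ?_⟩
    show h (N.π (swap (p w) (q w)) w) = h (N.π (swap a b) w)
    have e := (hs.2.1 w).1 (swap a b * swap (p w) (q w))
      (by rw [map_mul, Perm.sign_swap hab, Perm.sign_swap (hpq w)]; simp) fun x hx => by
        have hx' : x ∈ s w := by simpa using hx
        have e1 : x ≠ p w := fun e => hp w (e ▸ hx')
        have e2 : x ≠ q w := fun e => hq w (e ▸ hx')
        have e3 : x ≠ a := fun e => ha (e ▸ hx')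
        have e4 : x ≠ b := fun e => hb (e ▸ hx')
        rw [Perm.mul_apply, swap_apply_of_ne_of_ne e1 e2, swap_apply_of_ne_of_ne e3 e4]
    rw [map_mul, Perm.mul_apply] at e
    conv_rhs => rw [← e, swap_swap]
  obtain ⟨a', b, ha', -, key⟩ := h2 ι (Ω → ℂ) Ω (N.map (permRep Ω)) N.toWS LinearMap.id k s
    (s ω0) i ⟨fun _ _ e => e, fun τ z w => congrArg z ((N.π τ).symm_apply_apply w),
      fun a z w => congrArg z ((N.ε a).symm_apply_apply w)⟩ hs hk hsp (hs.1 ω0) hi
    (fun _ w _ => h0 w (Finset.mem_univ _))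
  have key' := key (Pi.single ω0 1) (fun w hw => by
      have e : w = ω0 := by_contra fun e => hw (Pi.single_eq_of_ne e _)
      rw [e]
      exact ⟨ha', Or.inl rfl⟩) ω0 a' rfl ha'
  simp only [LinearMap.id_apply, Pi.single_eq_same, Pi.single_apply] at key'
  split_ifs at key' <;> norm_num at key'

end Pool.Agent.MP_3ce0a0_al.H57
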